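import Pool.Agent.Lib_helper39.RC.Defs
import Pool.Agent.Lib_helper92.SQ.Defs
import Pool.Agent.Lib_helper24.SQ.PL

/-!
# Selberg's theorem for real characters: definitions (MP_77948b_nt)

The family is `m ≡ c mod 8`, `m ≍ K`, with the character `rv j m n = ψ_j(n) (n/m)`.
All kernels are functions of `log n`.
-/

namespace Pool.Agent.RSE

open Complex MeasureTheory Filter Topology
open Pool.Agent.RC (cc psi rv f0 IsRC Good gm pr DD)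
open scoped ContDiff

/-- `h(z) = O(e^{-Az})` for every `A ≥ -1`. -/
def Fast (h : ℝ → ℝ) : Prop :=
  ∀ A : ℝ, -1 ≤ A → ∃ C : ℝ, ∀ z : ℝ, |h z| ≤ C * Real.exp (-A * z)

/-- Admissible kernels. -/
structure Kern (g : ℝ → ℝ) : Prop where
  smooth : ContDiff ℝ ∞ g
  fast : ∀ i : ℕ, Fast (iteratedDeriv i g)
  int0 : ∫ z : ℝ, g z = 0
  int1 : ∫ z : ℝ, Real.exp (z / 2) * g z = 0

/-- `k0 κ z = e^{z/2} f0 κ (e^z)`, the density of the Gamma factor. -/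
noncomputable def k0 (κ : ℕ) (z : ℝ) : ℝ := Real.exp (z / 2) * f0 κ (Real.exp z)

/-- `gk κ i = (d/dz)^{i+1} ((d/dz)² - 1/4) k0 κ`. -/
noncomputable def gk (κ i : ℕ) (z : ℝ) : ℝ :=
  iteratedDeriv (i + 3) (k0 κ) z - 1 / 4 * iteratedDeriv (i + 1) (k0 κ) z

/-- Cut-off functions of the mollifier. -/
structure Cut (Θ : ℝ → ℝ) : Prop where
  smooth : ContDiff ℝ ∞ Θ
  supp : HasCompactSupport Θ
  one : ∀ x : ℝ, 1 ≤ x → Θ x = 0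
  lin : ∀ x : ℝ, 0 ≤ x → x ≤ 1 / 2 → Θ x = 1 - x
  bd : ∀ x : ℝ, 0 ≤ x → |Θ x| ≤ 1

/-- Weights of the family. -/
structure Bump (φ : ℝ → ℝ) : Prop where
  smooth : ContDiff ℝ ∞ φ
  nonneg : ∀ x : ℝ, 0 ≤ φ x
  le : ∀ x : ℝ, φ x ≤ 1
  one : ∀ x : ℝ, 1 ≤ x → x ≤ 2 → φ x = 1
  supp : ∀ x : ℝ, x < 1 / 2 ∨ 4 < x → φ x = 0

/-- `∑_{n odd} ψ_j(n) (n/m) n^{-1/2} g(log n + u)`. -/
noncomputable def DO (g : ℝ → ℝ) (j : Fin 4) (m : ℕ) (u : ℝ) : ℝ :=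
  ∑' n : ℕ, if Odd n then (rv j m n : ℝ) / √(n : ℝ) * g (Real.log n + u) else 0

/-- `∑_{n ≥ 1} ψ_j(n) (n/m) n^{-1/2} g(log n + u)`. -/
noncomputable def DF (g : ℝ → ℝ) (j : Fin 4) (m : ℕ) (u : ℝ) : ℝ :=
  ∑' n : ℕ, if 0 < n then (rv j m n : ℝ) / √(n : ℝ) * g (Real.log n + u) else 0

/-- Coefficients of the mollifier: odd `k` prime to `R`. -/
noncomputable def be (Θ : ℝ → ℝ) (L : ℝ) (R k : ℕ) : ℝ :=
  if Odd k ∧ k.Coprime R then Pool.Agent.SQ.al k * Θ (Real.log k / L) else 0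

/-- Integers `1 ≤ k ≤ e^L`. -/
noncomputable def KL (L : ℝ) : Finset ℕ := Finset.Icc 1 ⌊Real.exp L⌋₊

/-- Fourier density of `Λ |φ|²` with the Euler factor at `2` removed. -/
noncomputable def fo (g Θ : ℝ → ℝ) (L : ℝ) (R : ℕ) (j : Fin 4) (m : ℕ) (u : ℝ) : ℝ :=
  ∑ k ∈ KL L, ∑ l ∈ KL L, be Θ L R k * be Θ L R l * (rv j m (k * l) : ℝ) / √((k : ℝ) * l) *
    DO g j m (u + Real.log k - Real.log l)

/-- Fourier density of `Λ |φ|²`. -/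
noncomputable def ff (g Θ : ℝ → ℝ) (L : ℝ) (R : ℕ) (j : Fin 4) (m : ℕ) (u : ℝ) : ℝ :=
  ∑ k ∈ KL L, ∑ l ∈ KL L, be Θ L R k * be Θ L R l * (rv j m (k * l) : ℝ) / √((k : ℝ) * l) *
    DF g j m (u + Real.log k - Real.log l)

/-- The square part of `ψ(λ) DO(u1) DO(u2)`. -/
noncomputable def SQs (g : ℝ → ℝ) (m lam : ℕ) (u1 u2 : ℝ) : ℝ :=
  ∑' p : ℕ × ℕ, if Odd p.1 ∧ Odd p.2 ∧ IsSquare (p.1 * p.2 * lam) ∧ (p.1 * p.2 * lam).Coprime m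
    then g (Real.log p.1 + u1) * g (Real.log p.2 + u2) / √((p.1 : ℝ) * p.2) else 0

/-- The diagonal of `fo(u) fo(u')`. -/
noncomputable def Dg (g Θ : ℝ → ℝ) (L : ℝ) (R m : ℕ) (u u' : ℝ) : ℝ :=
  ∑ a ∈ KL L, ∑ b ∈ KL L, ∑ a' ∈ KL L, ∑ b' ∈ KL L,
    be Θ L R a * be Θ L R b * (be Θ L R a' * be Θ L R b') / √((a : ℝ) * b * (a' * b')) *
      SQs g m (a * b * (a' * b')) (u + Real.log a - Real.log b) (u' + Real.log a' - Real.log b')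

/-- `m ≡ c mod 8`, `K ≤ m < 2K`. -/
noncomputable def blk8 (c : ℕ) (K : ℝ) : Finset ℕ :=
  (Finset.range ⌈2 * K⌉₊).filter fun m => K ≤ (m : ℝ) ∧ (m : ℝ) < 2 * K ∧ m % 8 = c

/-- `m ≡ c mod 8`, `m ≤ 4K`. -/
noncomputable def fam (c : ℕ) (K : ℝ) : Finset ℕ :=
  (Finset.range (⌊4 * K⌋₊ + 1)).filter fun m => m % 8 = c

/-- The weighted covariance. -/
noncomputable def Ef (φ g Θ : ℝ → ℝ) (L : ℝ) (R : ℕ) (j : Fin 4) (c : ℕ) (K u u' : ℝ) : ℝ :=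
  ∑ m ∈ fam c K, φ (m / K) * (fo g Θ L R j m u * fo g Θ L R j m u')

/-- Its diagonal. -/
noncomputable def Df (φ g Θ : ℝ → ℝ) (L : ℝ) (R : ℕ) (c : ℕ) (K u u' : ℝ) : ℝ :=
  ∑ m ∈ fam c K, φ (m / K) * Dg g Θ L R m u u'

/-- Its non-diagonal part. -/
noncomputable def Pf (φ g Θ : ℝ → ℝ) (L : ℝ) (R : ℕ) (j : Fin 4) (c : ℕ) (K u u' : ℝ) : ℝ :=
  Ef φ g Θ L R j c K u u' - Df φ g Θ L R c K u u'

/-- The non-diagonal part for a fixed product `λ` of mollifier variables. -/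
noncomputable def PL (φ g : ℝ → ℝ) (j : Fin 4) (c : ℕ) (K : ℝ) (lam : ℕ) (u1 u2 : ℝ) : ℝ :=
  ∑ m ∈ fam c K, φ (m / K) * ((rv j m lam : ℝ) * DO g j m u1 * DO g j m u2 - SQs g m lam u1 u2)

/-- The non-zero frequencies of `∑_m φ(m/K) ψ_m(N)`. -/
noncomputable def PN (φ : ℝ → ℝ) (j : Fin 4) (c : ℕ) (K : ℝ) (N : ℕ) : ℝ :=
  (∑ m ∈ fam c K, φ (m / K) * (rv j m N : ℝ)) -
    if IsSquare N then K / 8 * (∫ x : ℝ, φ x) * ((Nat.totient N : ℝ) / N) else 0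

/-- `∏_{p ∣ n} (1 + p^{-1/2})`. -/
noncomputable def E1 (n : ℕ) : ℝ := ∏ p ∈ n.primeFactors, (1 + 1 / √(p : ℝ))

/-- Squarefree divisors. -/
def sd (n : ℕ) : Finset ℕ := n.divisors.filter Squarefree

/-- The centre `-½ log K`. -/
noncomputable def ce (K : ℝ) : ℝ := -(1 / 2) * Real.log K

/-- The class `c mod 8` has parity `κ` for `ψ_j`. -/
def Par (κ : ℕ) (j : Fin 4) (c : ℕ) : Prop :=
  κ ≤ 1 ∧ psi j 7 * ZMod.χ₄ (c : ZMod 4) = (-1) ^ κ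

/-- The odd classes. -/
def OC (c : ℕ) : Prop := c = 1 ∨ c = 3 ∨ c = 5 ∨ c = 7

/-! ## Gauss sums and Poisson summation -/

/-- `G_h(N) = ∑_{x mod N} (x/N) e(hx/N)`. -/
noncomputable def Gs (h : ℤ) (N : ℕ) : ℂ :=
  ∑ x ∈ Finset.range N, (jacobiSym (x : ℤ) N : ℂ) * cexp (2 * Real.pi * I * (h * x / N))

/-- `ε_N`. -/
noncomputable def ep (N : ℕ) : ℂ := if N % 4 = 1 then 1 else I

/-- `γ_h(N) = G_h(N) / (ε_N √N)`. -/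
noncomputable def gam (h : ℤ) (N : ℕ) : ℂ := Gs h N / (ep N * (√(N : ℝ) : ℂ))

/-- `φ^(ξ) = ∫ φ(x) e(-xξ) dx`. -/
noncomputable def fhat (φ : ℝ → ℝ) (ξ : ℝ) : ℂ :=
  ∫ x : ℝ, (φ x : ℂ) * cexp (-(2 * Real.pi * I * (x * ξ)))

/-- The double sum for one frequency `h`. -/
noncomputable def SS (φ g : ℝ → ℝ) (h : ℤ) (i : Fin 4) (lam : ℕ) (K u1 u2 : ℝ) : ℂ :=
  ∑' p : ℕ × ℕ, if Odd p.1 ∧ Odd p.2 then
    (psi i (p.1 * p.2 * lam) : ℂ) * gam h (p.1 * p.2 * lam) / ((p.1 : ℂ) * p.2) *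
      ((g (Real.log p.1 + u1) * g (Real.log p.2 + u2) : ℝ) : ℂ) *
      fhat φ (h * K / (8 * (p.1 * p.2 * lam))) else 0

/-! ## The diagonal -/

/-- `∑_{a odd, (a,m)=1} a⁻¹ g(2 log a + x)`. -/
noncomputable def AA (g : ℝ → ℝ) (m : ℕ) (x : ℝ) : ℝ :=
  ∑' a : ℕ, if Odd a ∧ a.Coprime m then g (2 * Real.log a + x) / a else 0

/-- The completely multiplicative function with value `-1` at `p ∈ T`, `1` at `p ∈ S \ T`,
`0` at all other primes. -/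
noncomputable def xS (S T : Finset ℕ) (n : ℕ) : ℝ :=
  if n ≠ 0 ∧ n.primeFactors ⊆ S then ∏ p ∈ T, (-1 : ℝ) ^ (n.factorization p) else 0

/-- The sign at `p`. -/
noncomputable def sg (T : Finset ℕ) (p : ℕ) : ℝ := if p ∈ T then -1 else 1

/-- The random model of `fo`. -/
noncomputable def fX (g Θ : ℝ → ℝ) (L : ℝ) (R : ℕ) (S T : Finset ℕ) (u : ℝ) : ℝ :=
  ∑ k ∈ KL L, ∑ l ∈ KL L, be Θ L R k * be Θ L R l * xS S T (k * l) / √((k : ℝ) * l) *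
    ∑' n : ℕ, xS S T n / √(n : ℝ) * g (Real.log n + (u + Real.log k - Real.log l))

/-- Odd primes up to `Y` not dividing `m`. -/
def SY (m Y : ℕ) : Finset ℕ := (pr Y).filter fun p => p ≠ 2 ∧ ¬ p ∣ m

/-- Average over the subsets of `S`. -/
noncomputable def avg (S : Finset ℕ) (F : Finset ℕ → ℝ) : ℝ :=
  (∑ T ∈ S.powerset, F T) / 2 ^ S.card

/-! ## The approximation of `Λ φ²` -/

/-- `∑_{kl ∣ N} β(k) β(l)`. -/
noncomputable def bN (Θ : ℝ → ℝ) (L : ℝ) (N : ℕ) : ℝ :=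
  ∑ k ∈ KL L, ∑ l ∈ KL L, if k * l ∣ N then be Θ L 1 k * be Θ L 1 l else 0

/-- Odd part of the density of `Λ φ² - main term`. -/
noncomputable def EO (g Θ : ℝ → ℝ) (L : ℝ) (j : Fin 4) (m : ℕ) (u : ℝ) : ℝ :=
  ∑' N : ℕ, if Odd N ∧ 3 ≤ N then (rv j m N : ℝ) * bN Θ L N / √(N : ℝ) * g (Real.log N + u)
    else 0

/-- Density of `Λ φ²`. -/
noncomputable def DM (g Θ : ℝ → ℝ) (L : ℝ) (j : Fin 4) (m : ℕ) (u : ℝ) : ℝ :=
  ∑ k ∈ KL L, ∑ l ∈ KL L, be Θ L 1 k * be Θ L 1 l * (rv j m (k * l) : ℝ) / √((k : ℝ) * l) *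
    DF g j m (u + Real.log k + Real.log l)

/-- Density of the main term. -/
noncomputable def gA (g : ℝ → ℝ) (j : Fin 4) (m : ℕ) (u : ℝ) : ℝ :=
  ∑' a : ℕ, (rv j m (2 ^ a) : ℝ) * (2 : ℝ) ^ (-(a : ℝ) / 2) * g (u + a * Real.log 2)

end Pool.Agent.RSE
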